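import Pool.Agent.Helper57.SI.Stmts

/-! # SI: the row LK -/

set_option autoImplicit false

namespace Pool.Agent.Helper77.SI

open MeasureTheory Set Filter Topology
open Pool.Agent.Helper57.QZ (Pr tor circ aa Zy Wy Sy Vy Ky Fy pt lin)
open Pool.Agent.Helper57.SI

theorem st_LK (h1 : Pool.Agent.Helper57.QZ.ST_BR) : ST_LK := by
  intro y t η ht hη0 hη hF hF'
  obtain ⟨hZ, hz, hd⟩ := h1 y 1 t one_pos ht
  obtain ⟨Z, hZe⟩ : ∃ Z : ℂ, Z = Zy y 1 (lin y t) := ⟨_, rfl⟩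
  obtain ⟨W, hWe⟩ : ∃ W : ℂ, W = Wy y 1 (lin y t) := ⟨_, rfl⟩
  obtain ⟨F, hFe⟩ : ∃ F : ℂ, F = Fy y (pt 1 t) := ⟨_, rfl⟩
  obtain ⟨D, hDe⟩ : ∃ D : ℂ, D = deriv (Fy y) (pt 1 t) := ⟨_, rfl⟩
  obtain ⟨z, hze⟩ : ∃ z : ℂ, z = riemannZeta (pt 1 t) := ⟨_, rfl⟩
  rw [← hZe] at hZ hz hd ⊢
  rw [← hWe] at hd ⊢
  rw [← hFe] at hz hF
  rw [← hDe] at hd hF'
  rw [← hze] at hz hd ⊢
  have hlow : 1 - η ≤ ‖F + 1‖ := by
    have h2 : ‖(1 : ℂ)‖ ≤ ‖F + 1‖ + ‖F‖ := by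
      calc ‖(1 : ℂ)‖ = ‖(F + 1) - F‖ := by rw [add_sub_cancel_left]
        _ ≤ ‖F + 1‖ + ‖F‖ := norm_sub_le _ _
    rw [norm_one] at h2
    linarith
  have hup : ‖F + 1‖ ≤ 1 + η := by
    have h2 := norm_add_le F 1
    rw [norm_one] at h2
    linarith
  have hpos : 0 < ‖F + 1‖ := by linarith
  have hF1 : F + 1 ≠ 0 := norm_pos_iff.1 hpos
  have hz0 : z ≠ 0 := by
    rw [hz]
    exact mul_ne_zero hZ hF1
  refine ⟨hz0, ?_, ?_, ?_⟩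
  · rw [hz, norm_mul, mul_comm]
    exact mul_le_mul_of_nonneg_left hlow (norm_nonneg _)
  · rw [hz, norm_mul, mul_comm]
    exact mul_le_mul_of_nonneg_right hup (norm_nonneg _)
  · have e1 : deriv riemannZeta (pt 1 t) / z - W = D / (F + 1) := by
      rw [hd, add_div, mul_div_assoc W z z, div_self hz0, mul_one, add_sub_cancel_right, hz,
        mul_div_mul_left _ _ hZ]
    rw [e1, norm_div, div_le_iff₀ hpos]
    nlinarith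
end Pool.Agent.Helper77.SI
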